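import Pool.Agent.MVD.StmtsLoc

/-!
# MVD, row MRL: the mirror image of the local identities (helper91)
-/

set_option autoImplicit false

open Pool.Agent.Helper14_MV Pool.Agent.Helper2_MV

namespace Pool.Agent.MVD.H91

theorem mult_of {c w c' w' : List ℕ} (h : Mult c w) (hc : ∀ a ∈ c', a ∈ c)
    (hw : ∀ a, w'.count a = w.count a) : Mult c' w' := by
  intro a ha
  rw [hw]
  exact h a (hc a ha)

theorem mrl (hmir : MirStmt) : MrlStmt := by
  intro β
  obtain ⟨rr, m1, m2, m3, -, s2, -, -, -, -, -, -, ff, zz, -, -⟩ := hmir β
  have ia : IA (Pool.Agent.MVD.mir β) ↔ IAd β := rr _ _
  have iad : IAd (Pool.Agent.MVD.mir β) ↔ IA β := rr _ _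
  refine ⟨ia, iad, ?_, ?_, ?_, ?_, ?_, ?_, ?_⟩
  · intro h
    exact ⟨m1 h.md, m2 h.i2, m3 h.i3, s2.2 h.s2, ff.2 h.zz, zz.2 h.ff, fun h' => h.nad (ia.1 h'),
      fun h' => h.na (iad.1 h')⟩
  · intro n
    constructor
    · intro h p c q y hl hy hm
      have h1 := h q.reverse c.reverse p.reverse y (by rwa [List.length_reverse])
        (by rwa [List.mem_reverse]) (mult_of hm (fun a ha => List.mem_reverse.1 ha)
          (fun a => by
            simp only [List.count_append, List.count_cons, List.count_reverse]
            omega))
      rw [rr] at h1
      simpa [List.append_assoc] using h1
    · intro h p c q y hl hy hm
      rw [rr]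
      have h1 := h q.reverse c.reverse p.reverse y (by rwa [List.length_reverse])
        (by rwa [List.mem_reverse]) (mult_of hm (fun a ha => List.mem_reverse.1 ha)
          (fun a => by
            simp only [List.count_append, List.count_cons, List.count_reverse]
            omega))
      simpa [List.append_assoc] using h1
  · intro n
    constructor
    · intro h p c q y hl hy hm
      have h1 := h q.reverse c.reverse p.reverse y (by rwa [List.length_reverse])
        (by rwa [List.mem_reverse]) (mult_of hm (fun a ha => List.mem_reverse.1 ha)
          (fun a => by
            simp only [List.count_append, List.count_cons, List.count_reverse]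
            omega))
      rw [rr] at h1
      simpa [List.append_assoc] using h1
    · intro h p c q y hl hy hm
      rw [rr]
      have h1 := h q.reverse c.reverse p.reverse y (by rwa [List.length_reverse])
        (by rwa [List.mem_reverse]) (mult_of hm (fun a ha => List.mem_reverse.1 ha)
          (fun a => by
            simp only [List.count_append, List.count_cons, List.count_reverse]
            omega))
      simpa [List.append_assoc] using h1
  · constructor
    · intro h p c q x y hc hp hq hx hm h3
      have h1 := h q.reverse c.reverse p.reverse x y (List.mem_reverse.2 hc)
        (fun h' => hq (List.mem_reverse.1 h')) (fun h' => hp (List.mem_reverse.1 h'))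
        (fun h' => hx (List.mem_reverse.1 h')) (mult_of hm (fun a ha => List.mem_reverse.1 ha)
          (fun a => by
            simp only [List.count_append, List.count_cons, List.count_reverse]
            omega)) (by
            simp only [List.count_append, List.count_cons, List.count_reverse] at h3 ⊢
            omega)
      rw [rr] at h1
      exact RR.symm (by simpa [List.append_assoc] using h1)
    · intro h p c q x y hc hp hq hx hm h3
      rw [rr]
      have h1 := h q.reverse c.reverse p.reverse x y (List.mem_reverse.2 hc)
        (fun h' => hq (List.mem_reverse.1 h')) (fun h' => hp (List.mem_reverse.1 h'))
        (fun h' => hx (List.mem_reverse.1 h')) (mult_of hm (fun a ha => List.mem_reverse.1 ha)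
          (fun a => by
            simp only [List.count_append, List.count_cons, List.count_reverse]
            omega)) (by
            simp only [List.count_append, List.count_cons, List.count_reverse] at h3 ⊢
            omega)
      have h2 := RR.symm h1
      simpa [List.append_assoc] using h2
  · constructor
    · intro h p c q x y hc hp hq hx hm h3
      have h1 := h q.reverse c.reverse p.reverse x y (List.mem_reverse.2 hc)
        (fun h' => hq (List.mem_reverse.1 h')) (fun h' => hp (List.mem_reverse.1 h'))
        (fun h' => hx (List.mem_reverse.1 h')) (mult_of hm (fun a ha => List.mem_reverse.1 ha)
          (fun a => by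
            simp only [List.count_append, List.count_cons, List.count_reverse]
            omega)) (by
            simp only [List.count_append, List.count_cons, List.count_reverse] at h3 ⊢
            omega)
      rw [rr] at h1
      exact RR.symm (by simpa [List.append_assoc] using h1)
    · intro h p c q x y hc hp hq hx hm h3
      rw [rr]
      have h1 := h q.reverse c.reverse p.reverse x y (List.mem_reverse.2 hc)
        (fun h' => hq (List.mem_reverse.1 h')) (fun h' => hp (List.mem_reverse.1 h'))
        (fun h' => hx (List.mem_reverse.1 h')) (mult_of hm (fun a ha => List.mem_reverse.1 ha)
          (fun a => by
            simp only [List.count_append, List.count_cons, List.count_reverse]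
            omega)) (by
            simp only [List.count_append, List.count_cons, List.count_reverse] at h3 ⊢
            omega)
      have h2 := RR.symm h1
      simpa [List.append_assoc] using h2
  · constructor
    · intro h p c q x y hc hp hq hx hm h2 h3
      have h1 := h q.reverse c.reverse p.reverse x y (List.mem_reverse.2 hc)
        (fun h' => hq (List.mem_reverse.1 h')) (fun h' => hp (List.mem_reverse.1 h'))
        (fun h' => hx (List.mem_reverse.1 h')) (mult_of hm (fun a ha => List.mem_reverse.1 ha)
          (fun a => by
            simp only [List.count_append, List.count_cons, List.count_reverse]
            omega)) (by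
            simp only [List.count_append, List.count_cons, List.count_reverse] at h2 ⊢
            omega) (by
            simp only [List.count_append, List.count_cons, List.count_reverse] at h3 ⊢
            omega)
      rw [rr] at h1
      exact RR.symm (by simpa [List.append_assoc] using h1)
    · intro h p c q x y hc hp hq hx hm h2 h3
      rw [rr]
      have h1 := h q.reverse c.reverse p.reverse x y (List.mem_reverse.2 hc)
        (fun h' => hq (List.mem_reverse.1 h')) (fun h' => hp (List.mem_reverse.1 h'))
        (fun h' => hx (List.mem_reverse.1 h')) (mult_of hm (fun a ha => List.mem_reverse.1 ha)
          (fun a => by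
            simp only [List.count_append, List.count_cons, List.count_reverse]
            omega)) (by
            simp only [List.count_append, List.count_cons, List.count_reverse] at h2 ⊢
            omega) (by
            simp only [List.count_append, List.count_cons, List.count_reverse] at h3 ⊢
            omega)
      have h2 := RR.symm h1
      simpa [List.append_assoc] using h2
  · constructor
    · intro h p c q x y hc hp hq hx hm h2 h3
      have h1 := h q.reverse c.reverse p.reverse x y (List.mem_reverse.2 hc)
        (fun h' => hq (List.mem_reverse.1 h')) (fun h' => hp (List.mem_reverse.1 h'))
        (fun h' => hx (List.mem_reverse.1 h')) (mult_of hm (fun a ha => List.mem_reverse.1 ha)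
          (fun a => by
            simp only [List.count_append, List.count_cons, List.count_reverse]
            omega)) (by
            simp only [List.count_append, List.count_cons, List.count_reverse] at h2 ⊢
            omega) (by
            simp only [List.count_append, List.count_cons, List.count_reverse] at h3 ⊢
            omega)
      rw [rr] at h1
      exact RR.symm (by simpa [List.append_assoc] using h1)
    · intro h p c q x y hc hp hq hx hm h2 h3
      rw [rr]
      have h1 := h q.reverse c.reverse p.reverse x y (List.mem_reverse.2 hc)
        (fun h' => hq (List.mem_reverse.1 h')) (fun h' => hp (List.mem_reverse.1 h'))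
        (fun h' => hx (List.mem_reverse.1 h')) (mult_of hm (fun a ha => List.mem_reverse.1 ha)
          (fun a => by
            simp only [List.count_append, List.count_cons, List.count_reverse]
            omega)) (by
            simp only [List.count_append, List.count_cons, List.count_reverse] at h2 ⊢
            omega) (by
            simp only [List.count_append, List.count_cons, List.count_reverse] at h3 ⊢
            omega)
      have h2 := RR.symm h1
      simpa [List.append_assoc] using h2

end Pool.Agent.MVD.H91
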